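import Pool.Agent.Helper54.CN.Contra
import Pool.Agent.Helper54.CN.SmallM
import Pool.Agent.Helper54.CN.Integers

/-!
# Class number one for the discriminants `m ^ 2 ± 4 r` with `r ∣ m`

For `m > 35` and odd `r > 1` dividing `m`, a real quadratic field whose discriminant is a
squarefree number of the form `m ^ 2 ± 4 r` never has class number one.
-/

namespace Pool.Agent.Results.MP_b2dd35_nt.ClassNumberOne

open Pool.Agent.Helper54.CN

/-- Let `m > 35`, let `r > 1` be odd with `r ∣ m`, and let `s = 1` or `s = -1`. If
`Δ = m ^ 2 + 4 s r` is squarefree and congruent to `1` modulo `4`, then every quadratic field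
containing a square root of `Δ` has class number greater than one. -/
theorem result : ∀ m r s : ℤ, (s = 1 ∨ s = -1) → 1 < r → Odd r → r ∣ m → 35 < m →
    Squarefree (m ^ 2 + 4 * s * r) → (m ^ 2 + 4 * s * r) % 4 = 1 →
    ∀ (K : Type*) [Field K] [NumberField K], Module.finrank ℚ K = 2 →
    (∃ x : K, x ^ 2 = ((m ^ 2 + 4 * s * r : ℤ) : K)) → 1 < NumberField.classNumber K := by
  intro m r s hs hr hro hrm hm hsq h4 K _ _ hK hx
  obtain ⟨x, hx⟩ := hx
  by_contra hcl
  have hpos : 0 < NumberField.classNumber K := Fintype.card_pos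
  have hcl1 : NumberField.classNumber K = 1 := by omega
  obtain ⟨k, hk⟩ := hrm
  have hs2 : s * s = 1 := by rcases hs with rfl | rfl <;> norm_num
  have hso : Odd s := by rcases hs with rfl | rfl <;> decide
  have han : (-(s * r)) * (-(s * k)) = m := by
    rw [hk]
    linear_combination (r * k) * hs2
  have hDD : DD (-(s * r)) (-(s * k)) = m ^ 2 + 4 * s * r := by
    unfold DD
    rw [han]
    ring
  have hmo : Odd m := by
    rw [← Int.not_even_iff_odd]
    rintro ⟨t, ht⟩
    rw [ht] at h4
    have : (t + t) ^ 2 + 4 * s * r = 4 * (t ^ 2 + s * r) := by ring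
    rw [this] at h4
    omega
  have hko : Odd k := by
    rw [hk, Int.odd_mul] at hmo
    exact hmo.2
  have hsq' : Squarefree (DD (-(s * r)) (-(s * k))) := by rw [hDD]; exact hsq
  have hbig : 35 < (-(s * r)) * (-(s * k)) := by rw [han]; exact hm
  have hyp : Hyp (-(s * r)) (-(s * k)) :=
    { odd_a := (hso.mul hro).neg
      odd_n := (hso.mul hko).neg
      ha := by
        have h1 : |(-(s * r))| = r := by
          rcases hs with rfl | rfl
          · rw [one_mul, abs_neg, abs_of_pos (by omega)]
          · rw [show -(-1 * r) = r by ring, abs_of_pos (by omega)]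
        rw [h1]
        obtain ⟨t, ht⟩ := hro
        omega
      big := hbig
      sqf := hsq'
      pid := pid_of_classNumber hK hsq' hbig (by rw [han]; exact hmo)
        (by rw [hDD]; exact hx) hcl1 }
  rcases lt_or_ge ((-(s * r)) * (-(s * k))) 150 with h | h
  · exact hyp.small_m h
  · exact Ctx.contra ⟨hyp, h⟩

end Pool.Agent.Results.MP_b2dd35_nt.ClassNumberOne
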